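import Pool.Agent.Y539.PiAdic.Cover

/-!
The average complexity of the words of length `n` over `ℤ[π]` is `n / 2 + O(1)`.
-/

set_option autoImplicit false

namespace Pool.Agent.Y539.PiAdic

open Module

variable {R : Type*} [CommRing R] {N : ℕ}

/-- The `π`-adic number `∑ b_i π^i` is `f / g`, where `g` is invertible modulo `π`: that is,
`g * ∑_{i<k} b_i π^i ≡ f` modulo `π^k`, for every `k`. -/
def Represents (π : R) (b : ℕ → Fin N) (f g : R) : Prop :=
  IsCoprime g π ∧ ∀ k : ℕ, π ^ k ∣ g * psum π b k - f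

/-- The complexity of a finite word with respect to a size function `φ`: the least
`max (φ f) (φ g)` over the infinite sequences `b` extending the word and the pairs `(f, g)` that
represent `b`. -/
noncomputable def wordComplexity (φ : R → ℝ) (π : R) {n : ℕ} (w : Fin n → Fin N) : ℝ :=
  sInf {r : ℝ | ∃ b : ℕ → Fin N, (∀ i : Fin n, b i = w i) ∧
    ∃ f g : R, Represents π b f g ∧ r = max (φ f) (φ g)}

section

variable {d : ℕ} {B : Basis (Fin d) ℤ R} {π : R} {ε : ℤ}

lemma Good.exists_represents [IsDomain R] (h : Good B π N ε) {n : ℕ} (w : Fin n → Fin N) {f g : R}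
    (hg : IsCoprime g π) (hfg : π ^ n ∣ g * wval π w - f) :
    ∃ b : ℕ → Fin N, (∀ i : Fin n, b i = w i) ∧ Represents π b f g := by
  have hN : 0 < N := by have := h.two_le; omega
  have hcop : ∀ k : ℕ, IsCoprime g (π ^ k) := fun k => IsCoprime.pow_right hg
  choose u v huv using hcop
  have hc : ∀ k, π ^ k ∣ g * (f * u k) - f := fun k =>
    ⟨-(f * v k), by linear_combination f * huv k⟩
  have hcoh : ∀ k, π ^ k ∣ f * u (k + 1) - f * u k := by
    intro k
    have h1 := dvd_sub ((pow_dvd_pow π (Nat.le_succ k)).trans (hc (k + 1))) (hc k)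
    have h2 : g * (f * u (k + 1)) - f - (g * (f * u k) - f) = g * (f * u (k + 1) - f * u k) := by
      ring
    rw [h2] at h1
    exact (IsCoprime.pow_left hg.symm).dvd_of_dvd_mul_left h1
  obtain ⟨b, hb⟩ := h.exists_digits (fun k => f * u k) hcoh
  have hb2 : ∀ k, π ^ k ∣ g * psum π b k - f := by
    intro k
    have h1 := dvd_sub (hc k) (Dvd.dvd.mul_left (hb k) g)
    have h2 : g * (f * u k) - f - g * (f * u k - psum π b k) = g * psum π b k - f := by ring
    rw [h2] at h1
    exact h1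
  have hbc : π ^ n ∣ psum π b n - psum π (ext hN w) n := by
    rw [psum_eq_wval π (ext_apply hN w)]
    have h1 := dvd_sub (hb2 n) hfg
    have h2 : g * psum π b n - f - (g * wval π w - f) = g * (psum π b n - wval π w) := by ring
    rw [h2] at h1
    exact (IsCoprime.pow_left hg.symm).dvd_of_dvd_mul_left h1
  have hdig := h.psum_inj hbc
  exact ⟨b, fun i => by rw [hdig i i.2, ext_apply], hg, hb2⟩

lemma Good.ne_zero_of_coprime (h : Good B π N ε) {g : R} (hg : IsCoprime g π) : g ≠ 0 := by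
  intro hz
  rw [hz, isCoprime_zero_left] at hg
  have h1 : π ∣ ((1 : ℤ) : R) := hg.dvd
  have h2 := Int.le_of_dvd one_pos (h.dvd_int h1)
  have := h.two_le
  omega

/-- Two-sided bounds for the complexity of a word. -/
theorem Good.wordComplexity_bounds [IsDomain R] (h : Good B π N ε) {φ : R → ℝ} {C : ℝ}
    (hφ1 : ∀ x, d * Real.logb N (nrm B x) ≤ φ x)
    (hφ2 : ∀ x, φ x ≤ d * Real.logb N (nrm B x) + C) {n : ℕ} (w : Fin n → Fin N) :
    d * Real.logb N (short B (π ^ n) (wval π w)) ≤ wordComplexity φ π w ∧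
      wordComplexity φ π w ≤ d * (n + 2 * d) + C -
        d * (2 * d - 1) * Real.logb N (short B (π ^ n) (wval π w)) := by
  have hP : π ^ n ≠ 0 := pow_ne_zero n h.ne_zero
  have hNr : (1 : ℝ) < N := by exact_mod_cast h.two_le
  have hdpos := h.pos
  have hdr : (0 : ℝ) ≤ d := by positivity
  set m := short B (π ^ n) (wval π w) with hm
  have hm0 : 0 < m := short_pos B hP _
  have hmr : (0 : ℝ) < m := by exact_mod_cast hm0
  have hlow : ∀ r ∈ {r : ℝ | ∃ b : ℕ → Fin N, (∀ i : Fin n, b i = w i) ∧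
      ∃ f g : R, Represents π b f g ∧ r = max (φ f) (φ g)}, d * Real.logb N m ≤ r := by
    rintro r ⟨b, hb, f, g, ⟨hg, hq⟩, rfl⟩
    have h1 := hq n
    rw [psum_eq_wval π hb] at h1
    have h2 : m ≤ max (nrm B f) (nrm B g) :=
      short_le B (Or.inr (h.ne_zero_of_coprime hg)) h1 (le_max_left _ _) (le_max_right _ _)
    have key : ∀ x : R, m ≤ nrm B x → d * Real.logb N m ≤ φ x := by
      intro x hx
      refine le_trans (mul_le_mul_of_nonneg_left ?_ hdr) (hφ1 x)
      exact Real.logb_le_logb_of_le hNr hmr (by exact_mod_cast hx)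
    rcases le_max_iff.1 h2 with h3 | h3
    · exact (key f h3).trans (le_max_left _ _)
    · exact (key g h3).trans (le_max_right _ _)
  obtain ⟨F, G, hL, hG1, hFG⟩ := h.exists_unit_pair n (wval π w)
  have hGc : IsCoprime G π := by
    obtain ⟨t, ht⟩ := hG1
    exact ⟨1, -t, by linear_combination ht⟩
  obtain ⟨b, hb, hrep⟩ := h.exists_represents w hGc hL
  have hmem : max (φ F) (φ G) ∈ {r : ℝ | ∃ b : ℕ → Fin N, (∀ i : Fin n, b i = w i) ∧
      ∃ f g : R, Represents π b f g ∧ r = max (φ f) (φ g)} := ⟨b, hb, F, G, hrep, rfl⟩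
  constructor
  · exact le_csInf ⟨_, hmem⟩ hlow
  · refine (csInf_le ⟨_, hlow⟩ hmem).trans ?_
    set X := max (nrm B F) (nrm B G) with hX
    have hX0 : 0 < X := lt_of_lt_of_le (nrm_pos B (h.ne_zero_of_coprime hGc)) (le_max_right _ _)
    have hXr : (0 : ℝ) < X := by exact_mod_cast hX0
    have hle : X * m ^ (2 * d - 1) ≤ N ^ (n + 2 * d) := by
      calc X * m ^ (2 * d - 1) ≤ 2 ^ (2 * d - 1) * N ^ (n + 1) := hFG
        _ ≤ N ^ (2 * d - 1) * N ^ (n + 1) :=
          Nat.mul_le_mul_right _ (Nat.pow_le_pow_left h.two_le _)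
        _ = N ^ (n + 2 * d) := by
          rw [← pow_add]
          congr 1
          omega
    have hle' : (X : ℝ) * (m : ℝ) ^ (2 * d - 1) ≤ (N : ℝ) ^ (n + 2 * d) := by exact_mod_cast hle
    have hlog := Real.logb_le_logb_of_le hNr (by positivity) hle'
    rw [Real.logb_mul hXr.ne' (pow_pos hmr _).ne', Real.logb_pow, Real.logb_pow,
      Real.logb_self_eq_one hNr, Nat.cast_sub (by omega : 1 ≤ 2 * d)] at hlog
    push_cast at hlog
    have hlogX : ∀ x : R, nrm B x ≤ X → Real.logb N (nrm B x) ≤ Real.logb N X := by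
      intro x hx
      rcases Nat.eq_zero_or_pos (nrm B x) with h0 | h0
      · rw [h0]
        simp only [Nat.cast_zero, Real.logb_zero]
        exact Real.logb_nonneg hNr (by exact_mod_cast hX0)
      · exact Real.logb_le_logb_of_le hNr (by exact_mod_cast h0) (by exact_mod_cast hx)
    have hmax : max (φ F) (φ G) ≤ d * Real.logb N X + C := by
      apply max_le
      · have := mul_le_mul_of_nonneg_left (hlogX F (le_max_left _ _)) hdr
        linarith [hφ2 F]
      · have := mul_le_mul_of_nonneg_left (hlogX G (le_max_right _ _)) hdr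
        linarith [hφ2 G]
    have h5 : (d : ℝ) * Real.logb N X ≤
        d * (n + 2 * d) - d * (2 * d - 1) * Real.logb N m := by
      have h6 : Real.logb N X ≤ (n + 2 * d) - (2 * d - 1) * Real.logb N m := by linarith
      have h7 := mul_le_mul_of_nonneg_left h6 hdr
      linarith
    linarith

/-- The number of thresholds above the `2 d`-th power of the shortest norm. -/
noncomputable def levels (B : Basis (Fin d) ℤ R) (π : R) {n : ℕ} (w : Fin n → Fin N) : ℕ :=
  ((Finset.range (n + 1)).filter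
    (fun k => short B (π ^ n) (wval π w) ^ (2 * d) ≤ N ^ (n - k))).card

lemma Good.levels_spec [IsDomain R] (h : Good B π N ε) {n : ℕ} (w : Fin n → Fin N) :
    (n : ℝ) - levels B π w ≤ 2 * d * Real.logb N (short B (π ^ n) (wval π w)) := by
  have hN0 : 0 < N := by have := h.two_le; omega
  have hNr : (1 : ℝ) < N := by exact_mod_cast h.two_le
  have hP : π ^ n ≠ 0 := pow_ne_zero n h.ne_zero
  set m : ℕ := short B (π ^ n) (wval π w) with hm
  have hm0 : 0 < m := short_pos B hP _
  have hmr : (0 : ℝ) < m := by exact_mod_cast hm0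
  set K := levels B π w with hK
  have hlog0 : 0 ≤ Real.logb N m := Real.logb_nonneg hNr (by exact_mod_cast hm0)
  by_cases hKn : K ≤ n
  · have hge : N ^ (n - K) ≤ m ^ (2 * d) := by
      by_contra hc
      push Not at hc
      have hsub : Finset.range (K + 1) ⊆ (Finset.range (n + 1)).filter
          (fun k => short B (π ^ n) (wval π w) ^ (2 * d) ≤ N ^ (n - k)) := by
        intro k hk
        rw [Finset.mem_range] at hk
        rw [Finset.mem_filter, Finset.mem_range]
        refine ⟨by omega, ?_⟩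
        rw [← hm]
        exact hc.le.trans (Nat.pow_le_pow_right hN0 (by omega))
      have hcard := Finset.card_le_card hsub
      rw [Finset.card_range] at hcard
      have : K + 1 ≤ K := hcard
      omega
    have hge' : (N : ℝ) ^ (n - K) ≤ (m : ℝ) ^ (2 * d) := by exact_mod_cast hge
    have h1 := Real.logb_le_logb_of_le hNr (by positivity) hge'
    rw [Real.logb_pow, Real.logb_pow, Real.logb_self_eq_one hNr, mul_one, Nat.cast_sub hKn] at h1
    push_cast at h1
    exact h1
  · push Not at hKn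
    have h1 : (n : ℝ) ≤ K := by exact_mod_cast hKn.le
    have h2 : 0 ≤ 2 * (d : ℝ) * Real.logb N m := by positivity
    linarith

lemma Good.card_pow_le [IsDomain R] (h : Good B π N ε) (n Y : ℕ) :
    ((Finset.univ : Finset (Fin n → Fin N)).filter
      (fun w => short B (π ^ n) (wval π w) ^ (2 * d) ≤ Y)).card ≤ tailC B N * Y := by
  set S := (Finset.univ : Finset (Fin n → Fin N)).filter
      (fun w => short B (π ^ n) (wval π w) ^ (2 * d) ≤ Y) with hS
  rcases S.eq_empty_or_nonempty with he | hne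
  · rw [he, Finset.card_empty]
    exact Nat.zero_le _
  · obtain ⟨w0, hw0, hmax⟩ := S.exists_max_image (fun w => short B (π ^ n) (wval π w)) hne
    have hsub : S ⊆ (Finset.univ : Finset (Fin n → Fin N)).filter
        (fun w => short B (π ^ n) (wval π w) ≤ short B (π ^ n) (wval π w0)) := by
      intro w hw
      rw [Finset.mem_filter]
      exact ⟨Finset.mem_univ _, hmax w hw⟩
    have h1 := Finset.card_le_card hsub
    have h2 := h.card_short_le n (short B (π ^ n) (wval π w0))
    have h3 := (Finset.mem_filter.1 hw0).2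
    exact h1.trans (h2.trans (Nat.mul_le_mul_left _ h3))

lemma Good.sum_levels_le [IsDomain R] (h : Good B π N ε) (n : ℕ) :
    ∑ w : Fin n → Fin N, levels B π w ≤ 2 * tailC B N * N ^ n := by
  have hswap : ∑ w : Fin n → Fin N, levels B π w =
      ∑ k ∈ Finset.range (n + 1), ((Finset.univ : Finset (Fin n → Fin N)).filter
        (fun w => short B (π ^ n) (wval π w) ^ (2 * d) ≤ N ^ (n - k))).card := by
    unfold levels
    simp_rw [Finset.card_filter]
    exact Finset.sum_comm
  rw [hswap]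
  have hk : ∀ k ∈ Finset.range (n + 1), ((Finset.univ : Finset (Fin n → Fin N)).filter
      (fun w => short B (π ^ n) (wval π w) ^ (2 * d) ≤ N ^ (n - k))).card ≤
        tailC B N * N ^ (n - k) := fun k _ => h.card_pow_le n _
  refine (Finset.sum_le_sum hk).trans ?_
  rw [← Finset.mul_sum]
  have hsum : ∑ k ∈ Finset.range (n + 1), N ^ (n - k) ≤ 2 * N ^ n := by
    have e := Finset.sum_range_reflect (fun j => N ^ j) (n + 1)
    have e2 : ∀ k, n + 1 - 1 - k = n - k := fun k => by omega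
    simp only [e2] at e
    rw [e, Finset.sum_range_succ]
    have := Nat.geomSum_lt h.two_le (s := Finset.range n) (n := n)
      (fun k hk => Finset.mem_range.1 hk)
    omega
  calc tailC B N * ∑ k ∈ Finset.range (n + 1), N ^ (n - k) ≤ tailC B N * (2 * N ^ n) :=
        Nat.mul_le_mul_left _ hsum
    _ = 2 * tailC B N * N ^ n := by ring

/-- The average complexity is `n / 2 + O(1)`. -/
theorem Good.average [IsDomain R] (h : Good B π N ε) {φ : R → ℝ} {C : ℝ}
    (hφ1 : ∀ x, d * Real.logb N (nrm B x) ≤ φ x)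
    (hφ2 : ∀ x, φ x ≤ d * Real.logb N (nrm B x) + C) (n : ℕ) :
    (n : ℝ) / 2 - tailC B N ≤
        (∑ w : Fin n → Fin N, wordComplexity φ π w) / (N : ℝ) ^ n ∧
      (∑ w : Fin n → Fin N, wordComplexity φ π w) / (N : ℝ) ^ n ≤
        (n : ℝ) / 2 + ((2 * d - 1) * tailC B N + 2 * d ^ 2 + C) := by
  have hN0 : 0 < N := by have := h.two_le; omega
  have hNr : (0 : ℝ) < N := by exact_mod_cast hN0
  have hPr : (0 : ℝ) < (N : ℝ) ^ n := pow_pos hNr n
  have hd1 : (1 : ℝ) ≤ d := by exact_mod_cast h.pos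
  set L : ℝ := ∑ w : Fin n → Fin N, Real.logb N (short B (π ^ n) (wval π w)) with hL
  have hLlow : ((n : ℝ) - 2 * tailC B N) * (N : ℝ) ^ n ≤ 2 * d * L := by
    have h1 : ∑ w : Fin n → Fin N, ((n : ℝ) - levels B π w) ≤ 2 * d * L := by
      rw [hL, Finset.mul_sum]
      exact Finset.sum_le_sum fun w _ => h.levels_spec w
    rw [Finset.sum_sub_distrib, Finset.sum_const, Finset.card_univ, Fintype.card_fun,
      Fintype.card_fin, Fintype.card_fin, nsmul_eq_mul] at h1
    have h2 : (∑ w : Fin n → Fin N, (levels B π w : ℝ)) ≤ 2 * tailC B N * (N : ℝ) ^ n := by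
      exact_mod_cast h.sum_levels_le n
    push_cast at h1
    linarith
  have hlow : d * L ≤ ∑ w : Fin n → Fin N, wordComplexity φ π w := by
    rw [hL, Finset.mul_sum]
    exact Finset.sum_le_sum fun w _ => (h.wordComplexity_bounds hφ1 hφ2 w).1
  have hup : ∑ w : Fin n → Fin N, wordComplexity φ π w ≤
      (d * (n + 2 * d) + C) * (N : ℝ) ^ n - d * (2 * d - 1) * L := by
    have h1 : ∑ w : Fin n → Fin N, wordComplexity φ π w ≤
        ∑ w : Fin n → Fin N, ((d * (n + 2 * d) + C) -
          d * (2 * d - 1) * Real.logb N (short B (π ^ n) (wval π w))) :=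
      Finset.sum_le_sum fun w _ => (h.wordComplexity_bounds hφ1 hφ2 w).2
    rw [Finset.sum_sub_distrib, Finset.sum_const, Finset.card_univ, Fintype.card_fun,
      Fintype.card_fin, Fintype.card_fin, nsmul_eq_mul, ← Finset.mul_sum] at h1
    push_cast at h1
    rw [← hL] at h1
    linarith
  constructor
  · rw [le_div_iff₀ hPr]
    have e : ((n : ℝ) / 2 - tailC B N) * (N : ℝ) ^ n =
        ((n : ℝ) - 2 * tailC B N) * (N : ℝ) ^ n / 2 := by ring
    rw [e]
    linarith
  · rw [div_le_iff₀ hPr]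
    have h3 : (2 * (d : ℝ) - 1) * (((n : ℝ) - 2 * tailC B N) * (N : ℝ) ^ n) ≤
        (2 * d - 1) * (2 * d * L) := mul_le_mul_of_nonneg_left hLlow (by linarith)
    have e : ((n : ℝ) / 2 + ((2 * d - 1) * tailC B N + 2 * d ^ 2 + C)) * (N : ℝ) ^ n =
        (d * (n + 2 * d) + C) * (N : ℝ) ^ n -
          (2 * (d : ℝ) - 1) * (((n : ℝ) - 2 * tailC B N) * (N : ℝ) ^ n) / 2 := by ring
    rw [e]
    linarith

end

/-- The size of an element in the first case (`π ^ 2 = - N`): `log_N (u ^ 2 + N v ^ 2)` for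
`u + v π`. The value at `0` is `0`. -/
noncomputable def sizeOne (B : Basis (Fin 2) ℤ R) (N : ℕ) (x : R) : ℝ :=
  Real.logb N ((B.repr x 0 : ℝ) ^ 2 + N * (B.repr x 1 : ℝ) ^ 2)

/-- The size of an element in the second case (`π ^ d = N`): the largest
`d log_N |u_i| + i` over the indices `i` with `u_i ≠ 0`, for `∑ u_i π^i`. The value at `0`
is `0`. -/
noncomputable def sizeTwo {d : ℕ} (B : Basis (Fin d) ℤ R) (N : ℕ) (x : R) : ℝ :=
  sSup {r : ℝ | ∃ i : Fin d, B.repr x i ≠ 0 ∧ r = d * Real.logb N |(B.repr x i : ℝ)| + (i : ℕ)}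

lemma exists_coord {d : ℕ} (B : Basis (Fin d) ℤ R) {x : R} (hx : x ≠ 0) :
    ∃ i : Fin d, (B.repr x i).natAbs = nrm B x := by
  have hne : (Finset.univ : Finset (Fin d)).Nonempty := by
    by_contra hc
    rw [Finset.not_nonempty_iff_eq_empty] at hc
    have := nrm_pos B hx
    unfold nrm at this
    rw [hc] at this
    simp at this
  obtain ⟨i, _, hi⟩ := Finset.exists_mem_eq_sup Finset.univ hne
    (fun i => (B.repr x i).natAbs)
  exact ⟨i, hi.symm⟩

lemma sizeTwo_bounds {d : ℕ} (B : Basis (Fin d) ℤ R) {N : ℕ} (hN : 2 ≤ N) (x : R) :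
    d * Real.logb N (nrm B x) ≤ sizeTwo B N x ∧
      sizeTwo B N x ≤ d * Real.logb N (nrm B x) + d := by
  have hNr : (1 : ℝ) < N := by exact_mod_cast hN
  have hdr : (0 : ℝ) ≤ d := by positivity
  by_cases hx : x = 0
  · subst hx
    have e : sizeTwo B N 0 = 0 := by
      unfold sizeTwo
      have : {r : ℝ | ∃ i : Fin d, B.repr 0 i ≠ 0 ∧
          r = d * Real.logb N |(B.repr 0 i : ℝ)| + (i : ℕ)} = ∅ := by
        ext r
        simp
      rw [this, Real.sSup_empty]
    rw [e, nrm_zero]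
    simp
  have hbd : ∀ r ∈ {r : ℝ | ∃ i : Fin d, B.repr x i ≠ 0 ∧
      r = d * Real.logb N |(B.repr x i : ℝ)| + (i : ℕ)}, r ≤ d * Real.logb N (nrm B x) + d := by
    rintro r ⟨i, hi, rfl⟩
    have h1 : (0 : ℝ) < |(B.repr x i : ℝ)| := abs_pos.2 (by exact_mod_cast hi)
    have h2 : |(B.repr x i : ℝ)| ≤ nrm B x := by exact_mod_cast abs_repr_le B x i
    have h3 := mul_le_mul_of_nonneg_left (Real.logb_le_logb_of_le hNr h1 h2) hdr
    have h4 : ((i : ℕ) : ℝ) ≤ d := by exact_mod_cast i.2.le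
    linarith
  obtain ⟨i, hi⟩ := exists_coord B hx
  have hi0 : B.repr x i ≠ 0 := by
    rw [← Int.natAbs_pos, hi]
    exact nrm_pos B hx
  have habs : |(B.repr x i : ℝ)| = nrm B x := by
    rw [← hi, Nat.cast_natAbs]
    simp
  have hmem : d * Real.logb N (nrm B x) + (i : ℕ) ∈ {r : ℝ | ∃ i : Fin d, B.repr x i ≠ 0 ∧
      r = d * Real.logb N |(B.repr x i : ℝ)| + (i : ℕ)} := ⟨i, hi0, by rw [habs]⟩
  constructor
  · have h5 := le_csSup ⟨_, hbd⟩ hmem
    have h6 : (0 : ℝ) ≤ ((i : ℕ) : ℝ) := by positivity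
    unfold sizeTwo
    linarith
  · exact csSup_le ⟨_, hmem⟩ hbd

lemma sizeOne_bounds (B : Basis (Fin 2) ℤ R) {N : ℕ} (hN : 2 ≤ N) (x : R) :
    (2 : ℕ) * Real.logb N (nrm B x) ≤ sizeOne B N x ∧
      sizeOne B N x ≤ (2 : ℕ) * Real.logb N (nrm B x) + Real.logb N (1 + N) := by
  have hNr : (1 : ℝ) < N := by exact_mod_cast hN
  by_cases hx : x = 0
  · subst hx
    unfold sizeOne
    rw [nrm_zero]
    simp only [map_zero, Finsupp.coe_zero, Pi.zero_apply, Int.cast_zero]
    have : Real.logb N (1 + N) ≥ 0 := Real.logb_nonneg hNr (by linarith)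
    norm_num
    exact this
  have hm0 := nrm_pos B hx
  have hmr : (0 : ℝ) < nrm B x := by exact_mod_cast hm0
  have h0 : |(B.repr x 0 : ℝ)| ≤ nrm B x := by exact_mod_cast abs_repr_le B x 0
  have h1 : |(B.repr x 1 : ℝ)| ≤ nrm B x := by exact_mod_cast abs_repr_le B x 1
  have h0' : (B.repr x 0 : ℝ) ^ 2 ≤ (nrm B x : ℝ) ^ 2 := by
    rw [← sq_abs]
    exact pow_le_pow_left₀ (abs_nonneg _) h0 2
  have h1' : (B.repr x 1 : ℝ) ^ 2 ≤ (nrm B x : ℝ) ^ 2 := by
    rw [← sq_abs]
    exact pow_le_pow_left₀ (abs_nonneg _) h1 2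
  obtain ⟨i, hi⟩ := exists_coord B hx
  have hlow : (nrm B x : ℝ) ^ 2 ≤ (B.repr x 0 : ℝ) ^ 2 + N * (B.repr x 1 : ℝ) ^ 2 := by
    have habs : |(B.repr x i : ℝ)| = nrm B x := by
      rw [← hi, Nat.cast_natAbs]
      simp
    have hsq : (nrm B x : ℝ) ^ 2 = (B.repr x i : ℝ) ^ 2 := by rw [← habs, sq_abs]
    rw [hsq]
    have hp0 : (0 : ℝ) ≤ (B.repr x 0 : ℝ) ^ 2 := sq_nonneg _
    have hp1 : (0 : ℝ) ≤ (B.repr x 1 : ℝ) ^ 2 := sq_nonneg _
    fin_cases i
    · show (B.repr x 0 : ℝ) ^ 2 ≤ _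
      nlinarith
    · show (B.repr x 1 : ℝ) ^ 2 ≤ _
      nlinarith
  constructor
  · have h2 := Real.logb_le_logb_of_le hNr (by positivity) hlow
    rw [Real.logb_pow] at h2
    exact h2
  · have h3 : (B.repr x 0 : ℝ) ^ 2 + N * (B.repr x 1 : ℝ) ^ 2 ≤ (nrm B x : ℝ) ^ 2 * (1 + N) := by
      nlinarith
    have h4 := Real.logb_le_logb_of_le hNr (lt_of_lt_of_le (by positivity) hlow) h3
    rw [Real.logb_mul (pow_pos hmr 2).ne' (by linarith), Real.logb_pow] at h4
    exact h4

end Pool.Agent.Y539.PiAdic
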