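import Pool.Agent.Y539.PiAdic.Short

/-!
A packing argument: a pair `(f, g)` with `g ≡ 1` modulo `π` whose size is controlled by the
shortest vector.
-/

set_option autoImplicit false

namespace Pool.Agent.Y539.PiAdic

open Module

variable {R : Type*} [CommRing R] {N : ℕ} {d : ℕ} (B : Basis (Fin d) ℤ R)

/-- Coordinatewise floor of `j * r / k`. -/
noncomputable def sc (k j : ℕ) (r : R) : R :=
  B.equivFun.symm (fun c => ((j : ℤ) * B.repr r c) / (k : ℤ))

lemma repr_sc (k j : ℕ) (r : R) (c : Fin d) :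
    B.repr (sc B k j r) c = ((j : ℤ) * B.repr r c) / (k : ℤ) := by
  unfold sc
  rw [← Basis.equivFun_apply, LinearEquiv.apply_symm_apply]

lemma floor_estimate {z U : ℤ} {i j k y X : ℕ} (hij : i < j) (hjk : j ≤ k)
    (hz : |z| ≤ X) (hU : |U| ≤ 2 * y) (hk : k * (2 * y + 1) < X) :
    |z + ((i : ℤ) * z) / k - ((j : ℤ) * z) / k + U| < X := by
  have hk0 : (0 : ℤ) < k := by
    have : 0 < k := by omega
    exact_mod_cast this
  have hkk : (k : ℤ) * (2 * y + 1) < X := by exact_mod_cast hk
  have a1 := Int.mul_ediv_add_emod ((i : ℤ) * z) k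
  have a2 := Int.emod_nonneg ((i : ℤ) * z) hk0.ne'
  have a3 := Int.emod_lt_of_pos ((i : ℤ) * z) hk0
  have b1 := Int.mul_ediv_add_emod ((j : ℤ) * z) k
  have b2 := Int.emod_nonneg ((j : ℤ) * z) hk0.ne'
  have b3 := Int.emod_lt_of_pos ((j : ℤ) * z) hk0
  set p := ((i : ℤ) * z) / k with hp
  set q := ((j : ℤ) * z) / k with hq
  set s := ((i : ℤ) * z) % k with hs
  set t := ((j : ℤ) * z) % k with ht
  have hX0 : (0 : ℤ) ≤ X := by positivity
  have e1 : (k : ℤ) * (z + p - q + U) = ((k : ℤ) - (j - i)) * z + (t - s) + k * U := by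
    linear_combination a1 - b1
  have hc0 : (0 : ℤ) ≤ (k : ℤ) - (j - i) := by
    have : (j : ℤ) ≤ k := by exact_mod_cast hjk
    have : (0 : ℤ) ≤ i := by positivity
    linarith
  have hc1 : (k : ℤ) - (j - i) ≤ k - 1 := by
    have : (i : ℤ) + 1 ≤ j := by exact_mod_cast hij
    linarith
  have e2 : |((k : ℤ) - (j - i)) * z| ≤ (k - 1) * X := by
    rw [abs_mul, abs_of_nonneg hc0]
    exact mul_le_mul hc1 hz (abs_nonneg _) (hc0.trans hc1)
  have e3 : |t - s| ≤ k := by
    rw [abs_le]
    constructor <;> linarith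
  have e4 : |(k : ℤ) * U| ≤ k * (2 * y) := by
    rw [abs_mul, abs_of_pos hk0]
    exact mul_le_mul_of_nonneg_left hU hk0.le
  have e5 : (k : ℤ) * |z + p - q + U| < k * X := by
    rw [← abs_of_pos hk0, ← abs_mul, abs_of_pos hk0, e1]
    calc |((k : ℤ) - (j - i)) * z + (t - s) + k * U|
        ≤ |((k : ℤ) - (j - i)) * z + (t - s)| + |(k : ℤ) * U| := abs_add_le _ _
      _ ≤ |((k : ℤ) - (j - i)) * z| + |t - s| + |(k : ℤ) * U| := by
          have := abs_add_le (((k : ℤ) - (j - i)) * z) (t - s)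
          linarith
      _ ≤ (k - 1) * X + k + k * (2 * y) := by linarith
      _ = (k - 1) * X + k * (2 * y + 1) := by ring
      _ < (k - 1) * X + X := by linarith
      _ = k * X := by ring
  exact lt_of_mul_lt_mul_left e5 hk0.le

variable {B}
variable {π : R} {ε : ℤ}

theorem Good.exists_unit_pair [IsDomain R] (h : Good B π N ε) (n : ℕ) (a : R) :
    ∃ F G : R, π ^ n ∣ G * a - F ∧ π ∣ G - 1 ∧
      max (nrm B F) (nrm B G) * short B (π ^ n) a ^ (2 * d - 1) ≤
        2 ^ (2 * d - 1) * N ^ (n + 1) := by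
  classical
  have hP : π ^ n ≠ 0 := pow_ne_zero n h.ne_zero
  have hdpos := h.pos
  set m := short B (π ^ n) a with hm
  have hm0 : 0 < m := short_pos B hP a
  -- the minimal size
  let T : Set ℕ := {k | ∃ F G : R, π ^ n ∣ G * a - F ∧ π ∣ G - 1 ∧ nrm B F ≤ k ∧ nrm B G ≤ k}
  have hTne : T.Nonempty := by
    refine ⟨max (nrm B a) (nrm B 1), a, 1, ?_, ?_, le_max_left _ _, le_max_right _ _⟩
    · rw [one_mul, sub_self]
      exact dvd_zero _
    · rw [sub_self]
      exact dvd_zero _
  set X := sInf T with hX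
  obtain ⟨F, G, hFG, hG1, hFX, hGX⟩ := Nat.sInf_mem hTne
  have hmin : ∀ F' G' : R, π ^ n ∣ G' * a - F' → π ∣ G' - 1 → nrm B F' < X → nrm B G' < X →
      False := by
    intro F' G' h1 h2 h3 h4
    have h5 : X ≤ X - 1 := Nat.sInf_le ⟨F', G', h1, h2, by omega, by omega⟩
    omega
  have hG0 : G ≠ 0 := by
    intro hz
    rw [hz, zero_sub, dvd_neg] at hG1
    have h1 : (N : ℤ) ∣ 1 := h.dvd_int (z := 1) (by simpa using hG1)
    have h2 := Int.le_of_dvd one_pos h1
    have := h.two_le
    omega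
  have hX0 : 0 < X := lt_of_lt_of_le (nrm_pos B hG0) hGX
  set y := (m - 1) / 2 with hy
  set k := (X - 1) / (2 * y + 1) with hk
  have hkX : k * (2 * y + 1) < X := by
    have := Nat.div_mul_le_self (X - 1) (2 * y + 1)
    rw [← hk] at this
    omega
  have hXk : X ≤ (k + 1) * (2 * y + 1) := by
    have := Nat.lt_div_mul_add (a := X - 1) (b := 2 * y + 1) (by omega)
    rw [← hk] at this
    have e : (k + 1) * (2 * y + 1) = k * (2 * y + 1) + (2 * y + 1) := by ring
    rw [e]
    omega
  have hym : 2 * y < m := by omega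
  have hm2 : m ≤ 2 * (2 * y + 1) := by omega
  -- classes
  have hword : ∀ (l : ℕ) (r : R), ∃ w : Fin l → Fin N, π ^ l ∣ r - wval π w :=
    fun l r => h.exists_word l r
  choose word hw using hword
  have hweq : ∀ (l : ℕ) (r s : R), word l r = word l s → π ^ l ∣ r - s := by
    intro l r s hrs
    have h1 := hw l r
    have h2 := hw l s
    rw [← hrs] at h2
    have := dvd_sub h1 h2
    have e : r - wval π (word l r) - (s - wval π (word l r)) = r - s := by ring
    rwa [e] at this
  let dom : Finset (ℕ × R × R) := Finset.range (k + 1) ×ˢ (ball B y ×ˢ ball B y)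
  let cls : ℕ × R × R → (Fin n → Fin N) × (Fin 1 → Fin N) := fun p =>
    (word n ((sc B k p.1 G + p.2.2) * a - (sc B k p.1 F + p.2.1)), word 1 (sc B k p.1 G + p.2.2))
  have hcls : ∀ p q : ℕ × R × R, cls p = cls q →
      π ^ n ∣ ((sc B k p.1 G + p.2.2) - (sc B k q.1 G + q.2.2)) * a -
        ((sc B k p.1 F + p.2.1) - (sc B k q.1 F + q.2.1)) ∧
      π ∣ (sc B k p.1 G + p.2.2) - (sc B k q.1 G + q.2.2) := by
    intro p q hpq
    have h1 := hweq _ _ _ (congrArg Prod.fst hpq)
    have h2 := hweq _ _ _ (congrArg Prod.snd hpq)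
    rw [pow_one] at h2
    refine ⟨?_, h2⟩
    have e : (sc B k p.1 G + p.2.2) * a - (sc B k p.1 F + p.2.1) -
        ((sc B k q.1 G + q.2.2) * a - (sc B k q.1 F + q.2.1)) =
        ((sc B k p.1 G + p.2.2) - (sc B k q.1 G + q.2.2)) * a -
        ((sc B k p.1 F + p.2.1) - (sc B k q.1 F + q.2.1)) := by ring
    rwa [e] at h1
  -- no coincidence between different levels
  have hlt : ∀ p ∈ dom, ∀ q ∈ dom, p.1 < q.1 → cls p = cls q → False := by
    intro p hp q hq hpq hc
    obtain ⟨h1, h2⟩ := hcls p q hc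
    have hp' := Finset.mem_product.1 hp
    have hq' := Finset.mem_product.1 hq
    have hp2 := Finset.mem_product.1 hp'.2
    have hq2 := Finset.mem_product.1 hq'.2
    rw [mem_ball, mem_ball] at hp2 hq2
    have hqk : q.1 ≤ k := by
      have := Finset.mem_range.1 hq'.1
      omega
    have hest : ∀ (r u v : R), nrm B r ≤ X → nrm B u ≤ y → nrm B v ≤ y →
        nrm B (r + ((sc B k p.1 r + u) - (sc B k q.1 r + v))) < X := by
      intro r u v hr hu hv
      have : nrm B (r + ((sc B k p.1 r + u) - (sc B k q.1 r + v))) ≤ X - 1 := by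
        apply nrm_le
        intro c
        have e1 : B.repr (r + ((sc B k p.1 r + u) - (sc B k q.1 r + v))) c =
            B.repr r c + ((p.1 : ℤ) * B.repr r c) / k - ((q.1 : ℤ) * B.repr r c) / k +
              (B.repr u c - B.repr v c) := by
          rw [map_add, map_sub, map_add, map_add, Finsupp.add_apply, Finsupp.sub_apply,
            Finsupp.add_apply, Finsupp.add_apply, repr_sc, repr_sc]
          ring
        rw [e1]
        have hz : |B.repr r c| ≤ X := (abs_repr_le B r c).trans (by exact_mod_cast hr)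
        have hU : |B.repr u c - B.repr v c| ≤ 2 * y := by
          have e2 := (abs_repr_le B u c).trans (by exact_mod_cast hu : (nrm B u : ℤ) ≤ y)
          have e3 := (abs_repr_le B v c).trans (by exact_mod_cast hv : (nrm B v : ℤ) ≤ y)
          have e4 := abs_sub (B.repr u c) (B.repr v c)
          linarith
        have h5 := floor_estimate hpq hqk hz hU hkX
        rw [Int.abs_eq_natAbs] at h5
        have h6 : ((B.repr r c + ((p.1 : ℤ) * B.repr r c) / k - ((q.1 : ℤ) * B.repr r c) / k +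
              (B.repr u c - B.repr v c)).natAbs) < X := by exact_mod_cast h5
        omega
      omega
    apply hmin (F + ((sc B k p.1 F + p.2.1) - (sc B k q.1 F + q.2.1)))
      (G + ((sc B k p.1 G + p.2.2) - (sc B k q.1 G + q.2.2)))
    · have := dvd_add hFG h1
      have e : G * a - F + (((sc B k p.1 G + p.2.2) - (sc B k q.1 G + q.2.2)) * a -
        ((sc B k p.1 F + p.2.1) - (sc B k q.1 F + q.2.1))) =
        (G + ((sc B k p.1 G + p.2.2) - (sc B k q.1 G + q.2.2))) * a -
        (F + ((sc B k p.1 F + p.2.1) - (sc B k q.1 F + q.2.1))) := by ring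
      rwa [e] at this
    · have := dvd_add hG1 h2
      have e : G - 1 + ((sc B k p.1 G + p.2.2) - (sc B k q.1 G + q.2.2)) =
        G + ((sc B k p.1 G + p.2.2) - (sc B k q.1 G + q.2.2)) - 1 := by ring
      rwa [e] at this
    · exact hest F _ _ hFX hp2.1 hq2.1
    · exact hest G _ _ hGX hp2.2 hq2.2
  have hinj : Set.InjOn cls (dom : Set (ℕ × R × R)) := by
    intro p hp q hq hc
    have hp1 : p ∈ dom := hp
    have hq1 : q ∈ dom := hq
    rcases lt_trichotomy p.1 q.1 with hlt' | heq | hgt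
    · exact (hlt p hp1 q hq1 hlt' hc).elim
    · obtain ⟨h1, -⟩ := hcls p q hc
      rw [heq] at h1
      have hp2 := Finset.mem_product.1 (Finset.mem_product.1 hp1).2
      have hq2 := Finset.mem_product.1 (Finset.mem_product.1 hq1).2
      rw [mem_ball, mem_ball] at hp2 hq2
      have e : ((sc B k q.1 G + p.2.2) - (sc B k q.1 G + q.2.2)) * a -
        ((sc B k q.1 F + p.2.1) - (sc B k q.1 F + q.2.1)) =
        (p.2.2 - q.2.2) * a - (p.2.1 - q.2.1) := by ring
      rw [e] at h1
      by_contra hne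
      have h0 : p.2.1 - q.2.1 ≠ 0 ∨ p.2.2 - q.2.2 ≠ 0 := by
        by_contra hc0
        push Not at hc0
        apply hne
        apply Prod.ext heq
        exact Prod.ext (sub_eq_zero.1 hc0.1) (sub_eq_zero.1 hc0.2)
      have h5 : short B (π ^ n) a ≤ 2 * y := by
        apply short_le B h0 h1
        · have := nrm_sub_le B p.2.1 q.2.1
          omega
        · have := nrm_sub_le B p.2.2 q.2.2
          omega
      omega
    · exact (hlt q hq1 p hp1 hgt hc.symm).elim
  have hcard := Finset.card_le_card_of_injOn (t := Finset.univ) cls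
    (fun p _ => Finset.mem_univ _) hinj
  rw [Finset.card_product, Finset.card_product, card_ball, Finset.card_range, Finset.card_univ,
    Fintype.card_prod, Fintype.card_fun, Fintype.card_fun, Fintype.card_fin, Fintype.card_fin,
    Fintype.card_fin, pow_one, ← pow_succ, ← pow_add] at hcard
  have hdd : d + d = (2 * d - 1) + 1 := by omega
  rw [hdd, pow_succ] at hcard
  have hfin : X * (2 * y + 1) ^ (2 * d - 1) ≤ N ^ (n + 1) := by
    calc X * (2 * y + 1) ^ (2 * d - 1) ≤ (k + 1) * (2 * y + 1) * (2 * y + 1) ^ (2 * d - 1) :=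
          Nat.mul_le_mul_right _ hXk
      _ = (k + 1) * ((2 * y + 1) ^ (2 * d - 1) * (2 * y + 1)) := by ring
      _ ≤ N ^ (n + 1) := hcard
  refine ⟨F, G, hFG, hG1, ?_⟩
  calc max (nrm B F) (nrm B G) * m ^ (2 * d - 1) ≤ X * (2 * (2 * y + 1)) ^ (2 * d - 1) :=
        Nat.mul_le_mul (max_le hFX hGX) (Nat.pow_le_pow_left hm2 _)
    _ = 2 ^ (2 * d - 1) * (X * (2 * y + 1) ^ (2 * d - 1)) := by rw [mul_pow]; ring
    _ ≤ 2 ^ (2 * d - 1) * N ^ (n + 1) := Nat.mul_le_mul_left _ hfin

end Pool.Agent.Y539.PiAdic
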