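import Pool.Agent.Y539.PiAdic.Norm

/-!
Digit expansions in `ℤ[π]`, where `π ^ d = ± N`.
-/

set_option autoImplicit false

namespace Pool.Agent.Y539.PiAdic

open Module

variable {R : Type*} [CommRing R] {N : ℕ}

/-- The partial sum `b_0 + b_1 π + ⋯ + b_{n-1} π^{n-1}`. -/
def psum (π : R) (b : ℕ → Fin N) (n : ℕ) : R := ∑ i ∈ Finset.range n, ((b i : ℕ) : R) * π ^ i

/-- The value `w_0 + w_1 π + ⋯ + w_{n-1} π^{n-1}` of a word. -/
def wval (π : R) {n : ℕ} (w : Fin n → Fin N) : R := ∑ i : Fin n, ((w i : ℕ) : R) * π ^ (i : ℕ)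

/-- `R` has the `ℤ`-basis `1, π, …, π^{d-1}`, with `d > 0`, and `π ^ d = ε N` with `ε = ± 1`. -/
structure Good {d : ℕ} (B : Basis (Fin d) ℤ R) (π : R) (N : ℕ) (ε : ℤ) : Prop where
  two_le : 2 ≤ N
  pos : 0 < d
  basis : ∀ i : Fin d, B i = π ^ (i : ℕ)
  unit : ε * ε = 1
  pow_eq : π ^ d = ((ε * N : ℤ) : R)

section

variable {d : ℕ} {B : Basis (Fin d) ℤ R} {π : R} {ε : ℤ}

lemma Good.dvd_N (h : Good B π N ε) : π ∣ (N : R) := by
  have h1 : ((ε : ℤ) : R) * π ^ d = N := by
    rw [h.pow_eq, ← Int.cast_mul, ← mul_assoc, h.unit, one_mul]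
    simp
  rw [← h1]
  exact Dvd.dvd.mul_left (dvd_pow_self _ h.pos.ne') _

lemma Good.coord_int (h : Good B π N ε) (z : ℤ) : B.repr (z : R) ⟨0, h.pos⟩ = z := by
  have h1 : (z : R) = z • B ⟨0, h.pos⟩ := by
    rw [h.basis]
    simp
  rw [h1, map_smul, Basis.repr_self]
  simp

lemma Good.coord_mul (h : Good B π N ε) (x : R) : (N : ℤ) ∣ B.repr (π * x) ⟨0, h.pos⟩ := by
  have hx : π * x = ∑ i : Fin d, B.repr x i • (π * B i) := by
    conv_lhs => rw [← B.sum_repr x]
    rw [Finset.mul_sum]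
    exact Finset.sum_congr rfl fun i _ => by rw [mul_smul_comm]
  rw [hx, map_sum, Finsupp.finsetSum_apply]
  apply Finset.dvd_sum
  intro i _
  rw [map_smul, Finsupp.smul_apply, smul_eq_mul]
  apply Dvd.dvd.mul_left
  rw [h.basis i, ← pow_succ']
  by_cases hi : (i : ℕ) + 1 < d
  · have e := h.basis ⟨(i : ℕ) + 1, hi⟩
    simp only at e
    rw [← e, Basis.repr_self, Finsupp.single_apply]
    have hne : (⟨(i : ℕ) + 1, hi⟩ : Fin d) ≠ ⟨0, h.pos⟩ := by
      intro hc
      have := congrArg Fin.val hc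
      simp at this
    rw [if_neg hne]
    exact dvd_zero _
  · have e : (i : ℕ) + 1 = d := by have := i.2; omega
    rw [e, h.pow_eq, h.coord_int]
    exact Dvd.intro_left _ rfl

lemma Good.dvd_int (h : Good B π N ε) {z : ℤ} (hz : π ∣ (z : R)) : (N : ℤ) ∣ z := by
  obtain ⟨x, hx⟩ := hz
  have h1 := h.coord_mul x
  rw [← hx, h.coord_int] at h1
  exact h1

lemma Good.exists_int (h : Good B π N ε) (r : R) : ∃ z : ℤ, π ∣ r - z := by
  refine ⟨B.repr r ⟨0, h.pos⟩, ?_⟩
  have h1 : r - (B.repr r ⟨0, h.pos⟩ : R) =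
      ∑ i ∈ Finset.univ.erase (⟨0, h.pos⟩ : Fin d), B.repr r i • B i := by
    have e1 := B.sum_repr r
    rw [← Finset.add_sum_erase Finset.univ _ (Finset.mem_univ (⟨0, h.pos⟩ : Fin d))] at e1
    have e2 : B.repr r ⟨0, h.pos⟩ • B ⟨0, h.pos⟩ = (B.repr r ⟨0, h.pos⟩ : R) := by
      rw [h.basis ⟨0, h.pos⟩]
      simp
    rw [e2] at e1
    exact (eq_sub_of_add_eq' e1).symm
  rw [h1]
  apply Finset.dvd_sum
  intro i hi
  rw [h.basis i, zsmul_eq_mul]
  apply Dvd.dvd.mul_left
  apply dvd_pow_self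
  intro hc
  exact (Finset.mem_erase.1 hi).1 (Fin.ext hc)

lemma Good.exists_digit (h : Good B π N ε) (r : R) : ∃ e : Fin N, π ∣ r - ((e : ℕ) : R) := by
  obtain ⟨z, hz⟩ := h.exists_int r
  have hN : (0 : ℤ) < N := by exact_mod_cast (by have := h.two_le; omega : 0 < N)
  have h0 := Int.emod_nonneg z hN.ne'
  have h1 := Int.emod_lt_of_pos z hN
  refine ⟨⟨(z % N).toNat, by omega⟩, ?_⟩
  have h2 : (((z % N).toNat : ℕ) : R) = ((z % N : ℤ) : R) := by
    rw [← Int.cast_natCast, Int.toNat_of_nonneg h0]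
  simp only
  rw [h2]
  have h3 : ((z % N : ℤ) : R) = z - N * ((z / N : ℤ) : R) := by
    rw [Int.emod_def]
    push_cast
    ring
  rw [h3]
  have h4 : r - ((z : R) - N * ((z / N : ℤ) : R)) = (r - z) + N * ((z / N : ℤ) : R) := by ring
  rw [h4]
  exact dvd_add hz (Dvd.dvd.mul_right h.dvd_N _)

lemma Good.ne_zero [IsDomain R] (h : Good B π N ε) : π ≠ 0 := by
  intro hz
  have h1 := h.dvd_int (z := 1) (by
    have h2 := h.pow_eq
    rw [hz, zero_pow h.pos.ne'] at h2
    have h3 : B.repr ((ε * N : ℤ) : R) ⟨0, h.pos⟩ = ε * N := h.coord_int _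
    rw [← h2, map_zero] at h3
    have h4 : ε * N = 0 := by
      rw [← h3]
      rfl
    rcases mul_eq_zero.1 h4 with h5 | h5
    · have := h.unit
      rw [h5] at this
      norm_num at this
    · have := h.two_le
      have h6 : N = 0 := by exact_mod_cast h5
      omega)
  have h2 := h.two_le
  have h3 := Int.le_of_dvd one_pos h1
  omega

lemma psum_zero (π : R) (b : ℕ → Fin N) : psum π b 0 = 0 := by simp [psum]

lemma psum_succ (π : R) (b : ℕ → Fin N) (n : ℕ) :
    psum π b (n + 1) = psum π b n + ((b n : ℕ) : R) * π ^ n := by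
  unfold psum
  rw [Finset.sum_range_succ]

lemma psum_congr (π : R) {a b : ℕ → Fin N} {n : ℕ} (h : ∀ i < n, b i = a i) :
    psum π b n = psum π a n := by
  unfold psum
  apply Finset.sum_congr rfl
  intro i hi
  rw [h i (Finset.mem_range.1 hi)]

lemma psum_eq_wval (π : R) {n : ℕ} {w : Fin n → Fin N} {b : ℕ → Fin N}
    (h : ∀ i : Fin n, b i = w i) : psum π b n = wval π w := by
  unfold psum wval
  rw [Finset.sum_range]
  exact Finset.sum_congr rfl fun i _ => by rw [h i]

/-- Digits of a coherent sequence of residues. -/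
lemma Good.exists_digits (h : Good B π N ε) (c : ℕ → R) (hc : ∀ n, π ^ n ∣ c (n + 1) - c n) :
    ∃ b : ℕ → Fin N, ∀ n, π ^ n ∣ c n - psum π b n := by
  have step : ∀ (n : ℕ) (s : R), ∃ e : Fin N,
      π ^ n ∣ c n - s → π ^ (n + 1) ∣ c (n + 1) - (s + ((e : ℕ) : R) * π ^ n) := by
    intro n s
    by_cases hs : π ^ n ∣ c n - s
    · have h1 : π ^ n ∣ c (n + 1) - s := by
        have := dvd_add (hc n) hs
        have e : c (n + 1) - c n + (c n - s) = c (n + 1) - s := by ring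
        rwa [e] at this
      obtain ⟨t, ht⟩ := h1
      obtain ⟨e, he⟩ := h.exists_digit t
      refine ⟨e, fun _ => ?_⟩
      obtain ⟨u, hu⟩ := he
      refine ⟨u, ?_⟩
      rw [pow_succ]
      linear_combination ht + π ^ n * hu
    · obtain ⟨e, _⟩ := h.exists_digit 0
      exact ⟨e, fun hh => absurd hh hs⟩
  choose e he using step
  let s : ℕ → R := fun n => Nat.rec 0 (fun k s => s + ((e k s : ℕ) : R) * π ^ k) n
  let b : ℕ → Fin N := fun n => e n (s n)
  have hs : ∀ n, psum π b n = s n := by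
    intro n
    induction n with
    | zero =>
      rw [psum_zero]
      rfl
    | succ n ih => rw [psum_succ, ih]
  refine ⟨b, fun n => ?_⟩
  rw [hs]
  induction n with
  | zero =>
    rw [pow_zero]
    exact one_dvd _
  | succ n ih => exact he n (s n) ih

lemma Good.psum_inj [IsDomain R] (h : Good B π N ε) {b c : ℕ → Fin N} {n : ℕ}
    (hd : π ^ n ∣ psum π b n - psum π c n) : ∀ i < n, b i = c i := by
  induction n with
  | zero => intro i hi; omega
  | succ n ih =>
    have h0 : π ^ n ∣ psum π b n - psum π c n := by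
      have h1 := (pow_dvd_pow π (Nat.le_succ n)).trans hd
      rw [psum_succ, psum_succ] at h1
      have h2 : psum π b n - psum π c n = (psum π b n + ((b n : ℕ) : R) * π ^ n -
          (psum π c n + ((c n : ℕ) : R) * π ^ n)) -
          (((b n : ℕ) : R) - ((c n : ℕ) : R)) * π ^ n := by ring
      rw [h2]
      exact dvd_sub h1 (Dvd.intro_left _ rfl)
    have h3 := ih h0
    have h4 : psum π b n = psum π c n := psum_congr π h3
    rw [psum_succ, psum_succ, h4] at hd
    have h5 : psum π c n + ((b n : ℕ) : R) * π ^ n - (psum π c n + ((c n : ℕ) : R) * π ^ n) =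
        π ^ n * (((b n : ℕ) : R) - ((c n : ℕ) : R)) := by ring
    rw [h5, pow_succ] at hd
    have h6 : π ∣ ((b n : ℕ) : R) - ((c n : ℕ) : R) :=
      (mul_dvd_mul_iff_left (pow_ne_zero n h.ne_zero)).1 hd
    have h6' : π ∣ ((((b n : ℕ) : ℤ) - ((c n : ℕ) : ℤ) : ℤ) : R) := by
      push_cast
      exact h6
    have h7 : ((b n : ℕ) : ℤ) - ((c n : ℕ) : ℤ) = 0 := by
      apply Int.eq_zero_of_abs_lt_dvd (h.dvd_int h6')
      have hb := (b n).2
      have hc := (c n).2
      rw [abs_lt]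
      constructor <;> omega
    intro i hi
    rcases Nat.lt_succ_iff_lt_or_eq.1 hi with h8 | h8
    · exact h3 i h8
    · subst h8
      apply Fin.ext
      omega

/-- Extend a word by zeros to a sequence. -/
def ext (hN : 0 < N) {n : ℕ} (w : Fin n → Fin N) : ℕ → Fin N :=
  fun i => if hi : i < n then w ⟨i, hi⟩ else ⟨0, hN⟩

lemma ext_apply (hN : 0 < N) {n : ℕ} (w : Fin n → Fin N) (i : Fin n) : ext hN w i = w i :=
  dif_pos i.2

lemma Good.wval_inj [IsDomain R] (h : Good B π N ε) {n : ℕ} {w v : Fin n → Fin N}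
    (hd : π ^ n ∣ wval π w - wval π v) : w = v := by
  have hN : 0 < N := by have := h.two_le; omega
  rw [← psum_eq_wval π (ext_apply hN w), ← psum_eq_wval π (ext_apply hN v)] at hd
  have h1 := h.psum_inj hd
  funext i
  rw [← ext_apply hN w i, ← ext_apply hN v i]
  exact h1 i i.2

lemma Good.exists_word (h : Good B π N ε) (n : ℕ) (r : R) :
    ∃ w : Fin n → Fin N, π ^ n ∣ r - wval π w := by
  obtain ⟨b, hb⟩ := h.exists_digits (fun _ => r) (fun n => by simp)
  refine ⟨fun i => b i, ?_⟩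
  rw [← psum_eq_wval π (b := b) (fun i => rfl)]
  exact hb n

/-- Nonzero multiples of `π ^ n` are large. -/
lemma Good.le_nrm [IsDomain R] (h : Good B π N ε) {n : ℕ} {x : R} (hx : x ≠ 0)
    (hd : π ^ n ∣ x) : N ^ (n / d) ≤ nrm B x := by
  obtain ⟨u, hu⟩ := hd
  have e1 : π ^ n = (((ε * N) ^ (n / d) : ℤ) : R) * π ^ (n % d) := by
    conv_lhs => rw [← Nat.div_add_mod n d]
    rw [pow_add, pow_mul, h.pow_eq]
    push_cast
    ring
  rw [e1, mul_assoc] at hu
  have e2 : x = ((ε * N) ^ (n / d) : ℤ) • (π ^ (n % d) * u) := by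
    rw [zsmul_eq_mul]
    exact hu
  have hne : π ^ (n % d) * u ≠ 0 := by
    intro hz
    rw [hz, smul_zero] at e2
    exact hx e2
  rw [e2, nrm_smul]
  have h3 : ((ε * N) ^ (n / d) : ℤ).natAbs = N ^ (n / d) := by
    rw [Int.natAbs_pow, Int.natAbs_mul, Int.natAbs_natCast]
    have h4 : ε.natAbs = 1 := by
      have := h.unit
      have h5 : ε.natAbs * ε.natAbs = 1 := by
        rw [← Int.natAbs_mul, this]
        rfl
      exact Nat.eq_one_of_mul_eq_one_right h5
    rw [h4, one_mul]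
  rw [h3]
  exact Nat.le_mul_of_pos_right _ (nrm_pos B hne)

end

end Pool.Agent.Y539.PiAdic
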