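import Mathlib

/-!
The coordinate sup norm on a ring that is free of finite rank over the integers.
-/

set_option autoImplicit false

namespace Pool.Agent.Y539.PiAdic

open Module

variable {R : Type*} [CommRing R] {d : ℕ} (B : Basis (Fin d) ℤ R)

/-- The largest absolute value of a coordinate. -/
noncomputable def nrm (x : R) : ℕ := Finset.univ.sup fun i => (B.repr x i).natAbs

lemma natAbs_repr_le (x : R) (i : Fin d) : (B.repr x i).natAbs ≤ nrm B x :=
  Finset.le_sup (f := fun i => (B.repr x i).natAbs) (Finset.mem_univ i)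

lemma abs_repr_le (x : R) (i : Fin d) : |B.repr x i| ≤ nrm B x := by
  rw [Int.abs_eq_natAbs]
  exact_mod_cast natAbs_repr_le B x i

lemma nrm_le {x : R} {k : ℕ} (h : ∀ i, (B.repr x i).natAbs ≤ k) : nrm B x ≤ k :=
  Finset.sup_le fun i _ => h i

lemma nrm_le' {x : R} {k : ℕ} (h : ∀ i, |B.repr x i| ≤ k) : nrm B x ≤ k :=
  nrm_le B fun i => by
    have := h i
    rw [Int.abs_eq_natAbs] at this
    exact_mod_cast this

lemma nrm_zero : nrm B 0 = 0 := by
  apply Nat.le_zero.1
  apply nrm_le
  intro i
  simp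

lemma nrm_eq_zero {x : R} : nrm B x = 0 ↔ x = 0 := by
  constructor
  · intro h
    apply B.repr.injective
    rw [map_zero]
    ext i
    have := natAbs_repr_le B x i
    rw [h, Nat.le_zero, Int.natAbs_eq_zero] at this
    rw [this]
    rfl
  · intro h
    rw [h]
    exact nrm_zero B

lemma nrm_pos {x : R} (h : x ≠ 0) : 0 < nrm B x :=
  Nat.pos_of_ne_zero fun h0 => h ((nrm_eq_zero B).1 h0)

lemma nrm_add_le (x y : R) : nrm B (x + y) ≤ nrm B x + nrm B y := by
  apply nrm_le
  intro i
  rw [map_add, Finsupp.add_apply]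
  exact (Int.natAbs_add_le _ _).trans
    (Nat.add_le_add (natAbs_repr_le B x i) (natAbs_repr_le B y i))

lemma nrm_neg (x : R) : nrm B (-x) = nrm B x := by
  unfold nrm
  congr 1
  funext i
  rw [map_neg, Finsupp.neg_apply, Int.natAbs_neg]

lemma nrm_sub_le (x y : R) : nrm B (x - y) ≤ nrm B x + nrm B y := by
  rw [sub_eq_add_neg]
  exact (nrm_add_le B _ _).trans (by rw [nrm_neg])

lemma nrm_sum_le {ι : Type*} (s : Finset ι) (f : ι → R) :
    nrm B (∑ i ∈ s, f i) ≤ ∑ i ∈ s, nrm B (f i) := by
  classical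
  induction s using Finset.induction_on with
  | empty => simp [nrm_zero]
  | insert a s ha ih =>
    rw [Finset.sum_insert ha, Finset.sum_insert ha]
    exact (nrm_add_le B _ _).trans (Nat.add_le_add_left ih _)

lemma nrm_smul (z : ℤ) (x : R) : nrm B (z • x) = z.natAbs * nrm B x := by
  apply le_antisymm
  · apply nrm_le
    intro i
    rw [map_smul, Finsupp.smul_apply, smul_eq_mul, Int.natAbs_mul]
    exact Nat.mul_le_mul_left _ (natAbs_repr_le B x i)
  · rcases Nat.eq_zero_or_pos z.natAbs with h | h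
    · rw [h, zero_mul]
      exact Nat.zero_le _
    · rw [mul_comm, ← Nat.le_div_iff_mul_le h]
      apply nrm_le
      intro i
      rw [Nat.le_div_iff_mul_le h, mul_comm, ← Int.natAbs_mul]
      have := natAbs_repr_le B (z • x) i
      rwa [map_smul, Finsupp.smul_apply, smul_eq_mul] at this

/-- A constant for the multiplication. -/
noncomputable def mulC : ℕ := ∑ i : Fin d, ∑ j : Fin d, nrm B (B i * B j)

lemma nrm_mul_le (x y : R) : nrm B (x * y) ≤ mulC B * nrm B x * nrm B y := by
  have hx : x * y = ∑ i : Fin d, ∑ j : Fin d, (B.repr x i * B.repr y j) • (B i * B j) := by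
    conv_lhs => rw [← B.sum_repr x, ← B.sum_repr y]
    rw [Finset.sum_mul_sum]
    refine Finset.sum_congr rfl fun i _ => Finset.sum_congr rfl fun j _ => ?_
    rw [smul_mul_smul_comm]
  rw [hx]
  refine (nrm_sum_le B _ _).trans ?_
  have h1 : ∀ i : Fin d, nrm B (∑ j : Fin d, (B.repr x i * B.repr y j) • (B i * B j)) ≤
      ∑ j : Fin d, nrm B (B i * B j) * (nrm B x * nrm B y) := by
    intro i
    refine (nrm_sum_le B _ _).trans (Finset.sum_le_sum fun j _ => ?_)
    rw [nrm_smul, Int.natAbs_mul, mul_comm]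
    exact Nat.mul_le_mul_left _ (Nat.mul_le_mul (natAbs_repr_le B x i) (natAbs_repr_le B y j))
  refine (Finset.sum_le_sum fun i _ => h1 i).trans ?_
  rw [mulC, mul_assoc, Finset.sum_mul]
  exact Finset.sum_le_sum fun i _ => by rw [Finset.sum_mul]

/-- The ball of radius `M`. -/
noncomputable def ball (M : ℕ) : Finset R :=
  (Fintype.piFinset (fun _ : Fin d => Finset.Icc (-(M : ℤ)) M)).map
    B.equivFun.symm.toEquiv.toEmbedding

lemma mem_ball {x : R} {M : ℕ} : x ∈ ball B M ↔ nrm B x ≤ M := by
  unfold ball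
  rw [Finset.mem_map]
  constructor
  · rintro ⟨c, hc, rfl⟩
    rw [Fintype.mem_piFinset] at hc
    apply nrm_le'
    intro i
    have h1 := hc i
    rw [Finset.mem_Icc] at h1
    have h2 : B.repr (B.equivFun.symm c) i = c i := by
      rw [← Basis.equivFun_apply, LinearEquiv.apply_symm_apply]
    show |B.repr (B.equivFun.symm c) i| ≤ _
    rw [h2, abs_le]
    exact h1
  · intro h
    refine ⟨B.equivFun x, ?_, B.equivFun.symm_apply_apply x⟩
    rw [Fintype.mem_piFinset]
    intro i
    rw [Finset.mem_Icc, ← abs_le, Basis.equivFun_apply]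
    exact (abs_repr_le B x i).trans (by exact_mod_cast h)

lemma card_ball (M : ℕ) : (ball B M).card = (2 * M + 1) ^ d := by
  unfold ball
  rw [Finset.card_map, Fintype.card_piFinset]
  rw [Finset.prod_const, Finset.card_univ, Fintype.card_fin, Int.card_Icc]
  congr 1
  omega

/-- Reduction modulo a nonzero element. -/
lemma exists_reduce [IsDomain R] {g : R} (hg : g ≠ 0) (r : R) :
    ∃ q : R, nrm B (r - q * g) ≤ mulC B * nrm B g := by
  have hfin : Module.Finite ℤ R := Module.Finite.of_basis B
  have hint : IsIntegral ℤ g := IsIntegral.of_finite ℤ g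
  have hne := Ideal.comap_ne_bot_of_integral_mem (I := Ideal.span {g}) hg
    (Ideal.mem_span_singleton_self g) hint
  obtain ⟨D, hD, hD0⟩ := Submodule.exists_mem_ne_zero_of_ne_bot hne
  rw [Ideal.mem_comap, Ideal.mem_span_singleton'] at hD
  obtain ⟨h, hh⟩ := hD
  have hh' : h * g = (D : R) := by rw [hh]; simp
  -- divide the coordinates of `r * h` by `D`
  set q : R := B.equivFun.symm (fun i => B.repr (r * h) i / D) with hq
  set t : R := B.equivFun.symm (fun i => B.repr (r * h) i % D) with ht
  have hqi : ∀ i, B.repr q i = B.repr (r * h) i / D := by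
    intro i
    rw [hq, ← Basis.equivFun_apply, LinearEquiv.apply_symm_apply]
  have hti : ∀ i, B.repr t i = B.repr (r * h) i % D := by
    intro i
    rw [ht, ← Basis.equivFun_apply, LinearEquiv.apply_symm_apply]
  have hsplit : r * h = D • q + t := by
    apply B.repr.injective
    ext i
    rw [map_add, Finsupp.add_apply, map_smul, Finsupp.smul_apply, smul_eq_mul, hqi, hti]
    exact (Int.mul_ediv_add_emod _ _).symm
  have hfin2 : D • (r - q * g) = t * g := by
    have e1 : r * h * g = (D • q + t) * g := by rw [hsplit]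
    rw [mul_assoc, hh'] at e1
    rw [zsmul_eq_mul] at e1 ⊢
    linear_combination e1
  have hnt : nrm B t ≤ D.natAbs := by
    apply nrm_le'
    intro i
    rw [hti, abs_of_nonneg (Int.emod_nonneg _ hD0)]
    have := (Int.emod_lt_abs (B.repr (r * h) i) hD0).le
    rw [Int.abs_eq_natAbs] at this
    exact this
  refine ⟨q, ?_⟩
  have h1 : D.natAbs * nrm B (r - q * g) ≤ D.natAbs * (mulC B * nrm B g) := by
    rw [← nrm_smul, hfin2]
    refine (nrm_mul_le B _ _).trans ?_
    calc mulC B * nrm B t * nrm B g ≤ mulC B * D.natAbs * nrm B g :=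
          Nat.mul_le_mul_right _ (Nat.mul_le_mul_left _ hnt)
      _ = D.natAbs * (mulC B * nrm B g) := by ring
  exact Nat.le_of_mul_le_mul_left h1 (Int.natAbs_pos.2 hD0)

end Pool.Agent.Y539.PiAdic
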