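import Pool.Agent.Y539.PiAdic.Digits

/-!
The shortest vector of the lattice of approximations, and how rarely it is short.
-/

set_option autoImplicit false

namespace Pool.Agent.Y539.PiAdic

open Module

variable {R : Type*} [CommRing R] {N : ℕ} {d : ℕ} (B : Basis (Fin d) ℤ R)

/-- The numbers `k` such that there is a nonzero pair `(f, g)` with `g * a ≡ f` modulo `P` and
coordinates at most `k` in absolute value. -/
def shortSet (P a : R) : Set ℕ :=
  {k : ℕ | ∃ f g : R, (f ≠ 0 ∨ g ≠ 0) ∧ P ∣ g * a - f ∧ nrm B f ≤ k ∧ nrm B g ≤ k}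

/-- The norm of a shortest nonzero pair. -/
noncomputable def short (P a : R) : ℕ := sInf (shortSet B P a)

lemma short_le {P a f g : R} {k : ℕ} (h0 : f ≠ 0 ∨ g ≠ 0) (h1 : P ∣ g * a - f)
    (h2 : nrm B f ≤ k) (h3 : nrm B g ≤ k) : short B P a ≤ k :=
  Nat.sInf_le ⟨f, g, h0, h1, h2, h3⟩

lemma short_mem {P : R} (hP : P ≠ 0) (a : R) : short B P a ∈ shortSet B P a := by
  apply Nat.sInf_mem
  refine ⟨nrm B P, P, 0, Or.inl hP, ?_, le_rfl, ?_⟩
  · rw [zero_mul, zero_sub]
    exact (dvd_neg).2 dvd_rfl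
  · rw [nrm_zero]
    exact Nat.zero_le _

lemma short_pos {P : R} (hP : P ≠ 0) (a : R) : 0 < short B P a := by
  obtain ⟨f, g, h0, _, h2, h3⟩ := short_mem B hP a
  rcases h0 with h | h
  · exact lt_of_lt_of_le (nrm_pos B h) h2
  · exact lt_of_lt_of_le (nrm_pos B h) h3

variable {B}
variable {π : R} {ε : ℤ}

/-- For a fixed nonzero `g`, few words have `g * w` close to a multiple of `π ^ n`. -/
lemma Good.card_words_le [IsDomain R] (h : Good B π N ε) (n : ℕ) {g : R} (hg : g ≠ 0) (x : ℕ)
    (S : Finset (Fin n → Fin N))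
    (hS : ∀ w ∈ S, ∃ f : R, nrm B f ≤ x ∧ π ^ n ∣ g * wval π w - f) :
    S.card ≤ (2 * (2 * x + mulC B * nrm B g) + 1) ^ d := by
  classical
  -- canonical representatives modulo `g`
  have hrep : ∀ q : R ⧸ Ideal.span {g}, ∃ r : R, Ideal.Quotient.mk (Ideal.span {g}) r = q ∧
      nrm B r ≤ mulC B * nrm B g := by
    intro q
    obtain ⟨r, rfl⟩ := Ideal.Quotient.mk_surjective q
    obtain ⟨t, ht⟩ := exists_reduce B hg r
    refine ⟨r - t * g, ?_, ht⟩
    rw [Ideal.Quotient.mk_eq_mk_iff_sub_mem, Ideal.mem_span_singleton]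
    exact ⟨-t, by ring⟩
  choose rep hrep1 hrep2 using hrep
  -- a choice of numerator for each representative
  have hnum : ∀ r : R, ∃ f : R, (∃ f' : R, nrm B f' ≤ x ∧ g ∣ f' + π ^ n * r) →
      nrm B f ≤ x ∧ g ∣ f + π ^ n * r := by
    intro r
    by_cases hr : ∃ f' : R, nrm B f' ≤ x ∧ g ∣ f' + π ^ n * r
    · obtain ⟨f', hf'⟩ := hr
      exact ⟨f', fun _ => hf'⟩
    · exact ⟨0, fun hh => absurd hh hr⟩
  choose num hnum1 using hnum
  have hS' : ∀ w : Fin n → Fin N, ∃ f k : R, w ∈ S →
      nrm B f ≤ x ∧ g * wval π w - f = π ^ n * k := by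
    intro w
    by_cases hw : w ∈ S
    · obtain ⟨f, hf, k, hk⟩ := hS w hw
      exact ⟨f, k, fun _ => ⟨hf, hk⟩⟩
    · exact ⟨0, 0, fun hh => absurd hh hw⟩
  choose f k hfk using hS'
  let red : R → R := fun r => rep (Ideal.Quotient.mk (Ideal.span {g}) r)
  have hred1 : ∀ r, g ∣ r - red r := by
    intro r
    rw [← Ideal.mem_span_singleton, ← Ideal.Quotient.mk_eq_mk_iff_sub_mem]
    exact (hrep1 _).symm
  have hred2 : ∀ r s, g ∣ r - s → red r = red s := by
    intro r s hrs
    have : Ideal.Quotient.mk (Ideal.span {g}) r = Ideal.Quotient.mk (Ideal.span {g}) s := by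
      rw [Ideal.Quotient.mk_eq_mk_iff_sub_mem, Ideal.mem_span_singleton]
      exact hrs
    show rep _ = rep _
    rw [this]
  have hd1 : ∀ w ∈ S, g ∣ f w + π ^ n * red (k w) := by
    intro w hw
    obtain ⟨_, hk⟩ := hfk w hw
    obtain ⟨t, ht⟩ := hred1 (k w)
    refine ⟨wval π w - π ^ n * t, ?_⟩
    linear_combination (-1 : R) * hk - π ^ n * ht
  have hn : ∀ w ∈ S, nrm B (num (red (k w))) ≤ x ∧ g ∣ num (red (k w)) + π ^ n * red (k w) := by
    intro w hw
    exact hnum1 _ ⟨f w, (hfk w hw).1, hd1 w hw⟩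
  let φ : (Fin n → Fin N) → R := fun w => red (k w) + (f w - num (red (k w)))
  have hmaps : ∀ w ∈ S, φ w ∈ ball B (2 * x + mulC B * nrm B g) := by
    intro w hw
    rw [mem_ball]
    refine (nrm_add_le B _ _).trans ?_
    have e1 : nrm B (red (k w)) ≤ mulC B * nrm B g := hrep2 _
    have e2 := nrm_sub_le B (f w) (num (red (k w)))
    have e3 := (hfk w hw).1
    have e4 := (hn w hw).1
    omega
  have hinj : Set.InjOn φ (S : Set (Fin n → Fin N)) := by
    intro w hw v hv hwv
    have hw' : w ∈ S := hw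
    have hv' : v ∈ S := hv
    have e0 : red (k w) + (f w - num (red (k w))) = red (k v) + (f v - num (red (k v))) := hwv
    have e1 : g ∣ f w - num (red (k w)) := by
      have := dvd_sub (hd1 w hw') (hn w hw').2
      have e : f w + π ^ n * red (k w) - (num (red (k w)) + π ^ n * red (k w)) =
        f w - num (red (k w)) := by ring
      rwa [e] at this
    have e2 : g ∣ f v - num (red (k v)) := by
      have := dvd_sub (hd1 v hv') (hn v hv').2
      have e : f v + π ^ n * red (k v) - (num (red (k v)) + π ^ n * red (k v)) =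
        f v - num (red (k v)) := by ring
      rwa [e] at this
    have e3 : g ∣ red (k w) - red (k v) := by
      have := dvd_sub e2 e1
      have e : f v - num (red (k v)) - (f w - num (red (k w))) = red (k w) - red (k v) := by
        linear_combination (-1 : R) * e0
      rwa [e] at this
    have e4 : g ∣ k w - k v := by
      have := dvd_add (dvd_sub (hred1 (k w)) (hred1 (k v))) e3
      have e : k w - red (k w) - (k v - red (k v)) + (red (k w) - red (k v)) = k w - k v := by
        ring
      rwa [e] at this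
    have e5 : red (k w) = red (k v) := hred2 _ _ e4
    have e6 : f w = f v := by
      rw [e5] at e0
      linear_combination e0
    obtain ⟨t, ht⟩ := e4
    have e7 : g * (wval π w - wval π v) = g * (π ^ n * t) := by
      have h1 := (hfk w hw').2
      have h2 := (hfk v hv').2
      linear_combination h1 - h2 + e6 + π ^ n * ht
    have e8 := mul_left_cancel₀ hg e7
    exact h.wval_inj ⟨t, e8⟩
  have := Finset.card_le_card_of_injOn φ hmaps hinj
  rwa [card_ball] at this

/-- A constant for the counting bound. -/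
noncomputable def tailC (B : Basis (Fin d) ℤ R) (N : ℕ) : ℕ :=
  (3 * (5 + 2 * mulC B)) ^ d + N ^ d

lemma Good.card_short_le [IsDomain R] (h : Good B π N ε) (n x : ℕ) :
    ((Finset.univ : Finset (Fin n → Fin N)).filter
      (fun w => short B (π ^ n) (wval π w) ≤ x)).card ≤ tailC B N * x ^ (2 * d) := by
  classical
  have hP : π ^ n ≠ 0 := pow_ne_zero n h.ne_zero
  have hN : 0 < N := by have := h.two_le; omega
  have hdpos := h.pos
  rcases Nat.eq_zero_or_pos x with hx | hx
  · subst hx
    rw [Finset.card_eq_zero.2]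
    · exact Nat.zero_le _
    · apply Finset.filter_eq_empty_iff.2
      intro w _ hle
      have := short_pos B hP (wval π w)
      omega
  by_cases hxN : N ^ (n / d) ≤ x
  · refine (Finset.card_filter_le _ _).trans ?_
    rw [Finset.card_univ, Fintype.card_fun, Fintype.card_fin, Fintype.card_fin]
    have h1 : N ^ n ≤ N ^ d * x ^ d := by
      calc N ^ n ≤ N ^ (d + (n / d) * d) := by
            apply Nat.pow_le_pow_right hN
            have := Nat.lt_div_mul_add (a := n) hdpos
            omega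
        _ = N ^ d * (N ^ (n / d)) ^ d := by rw [pow_add, pow_mul]
        _ ≤ N ^ d * x ^ d := Nat.mul_le_mul_left _ (Nat.pow_le_pow_left hxN d)
    have h2 : x ^ d ≤ x ^ (2 * d) := Nat.pow_le_pow_right hx (by omega)
    calc N ^ n ≤ N ^ d * x ^ d := h1
      _ ≤ N ^ d * x ^ (2 * d) := Nat.mul_le_mul_left _ h2
      _ ≤ tailC B N * x ^ (2 * d) := Nat.mul_le_mul_right _ (Nat.le_add_left _ _)
  push Not at hxN
  let U : R → Finset (Fin n → Fin N) := fun g =>
    Finset.univ.filter (fun w => ∃ f : R, nrm B f ≤ x ∧ π ^ n ∣ g * wval π w - f)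
  have hsub : (Finset.univ : Finset (Fin n → Fin N)).filter
      (fun w => short B (π ^ n) (wval π w) ≤ x) ⊆ ((ball B x).erase 0).biUnion U := by
    intro w hw
    rw [Finset.mem_filter] at hw
    obtain ⟨f, g, h0, h1, h2, h3⟩ := short_mem B hP (wval π w)
    have hg0 : g ≠ 0 := by
      intro hz
      rw [hz, zero_mul, zero_sub, dvd_neg] at h1
      have hf : f ≠ 0 := by
        rcases h0 with h0 | h0
        · exact h0
        · exact absurd hz h0
      have := h.le_nrm hf h1
      omega
    rw [Finset.mem_biUnion]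
    refine ⟨g, ?_, ?_⟩
    · rw [Finset.mem_erase, mem_ball]
      exact ⟨hg0, h3.trans hw.2⟩
    · rw [Finset.mem_filter]
      exact ⟨Finset.mem_univ _, f, h2.trans hw.2, h1⟩
  refine (Finset.card_le_card hsub).trans (Finset.card_biUnion_le.trans ?_)
  have hU : ∀ g ∈ (ball B x).erase 0, (U g).card ≤ ((5 + 2 * mulC B) * x) ^ d := by
    intro g hg
    rw [Finset.mem_erase, mem_ball] at hg
    have h1 := h.card_words_le n hg.1 x (U g) (fun w hw => (Finset.mem_filter.1 hw).2)
    refine h1.trans (Nat.pow_le_pow_left ?_ d)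
    have h2 : mulC B * nrm B g ≤ mulC B * x := Nat.mul_le_mul_left _ hg.2
    nlinarith
  refine (Finset.sum_le_card_nsmul _ _ _ hU).trans ?_
  have h4 : ((ball B x).erase 0).card ≤ (3 * x) ^ d := by
    refine (Finset.card_erase_le).trans ?_
    rw [card_ball]
    exact Nat.pow_le_pow_left (by omega) d
  rw [smul_eq_mul]
  calc ((ball B x).erase 0).card * ((5 + 2 * mulC B) * x) ^ d
      ≤ (3 * x) ^ d * ((5 + 2 * mulC B) * x) ^ d := Nat.mul_le_mul_right _ h4
    _ = (3 * (5 + 2 * mulC B)) ^ d * x ^ (2 * d) := by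
        rw [← mul_pow]
        have : 3 * x * ((5 + 2 * mulC B) * x) = 3 * (5 + 2 * mulC B) * x ^ 2 := by ring
        rw [this, mul_pow, ← pow_mul]
    _ ≤ tailC B N * x ^ (2 * d) := Nat.mul_le_mul_right _ (Nat.le_add_right _ _)

end Pool.Agent.Y539.PiAdic
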